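import Mathlib
import Pool.Agent.Y559.VG.Fam

set_option autoImplicit false

/-!
# Every nontrivial compact group is a counterexample

Full (negative) answer to Q1 in a stronger form: for EVERY nontrivial compact (Hausdorff) group `G`,
metrizable or not, there is a faithful continuous action of `G` on a Valdivia compact space `K`,
which is even homeomorphic to a product of compact metrizable spaces, such that no dense Sigma-subset
of `K` is invariant under any single element `g ≠ 1` of `G`.
-/

open Set Topology

namespace Pool.Agent.Results.MP_42f98c_gt.AllCompactGroups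

/-- `A` is a Sigma-subset of `K`: the preimage of the Sigma-product under an embedding of `K`
into a power of the line. -/
def IsSigmaSubset {K : Type} [TopologicalSpace K] (A : Set K) : Prop :=
  ∃ (Γ : Type) (φ : K → (Γ → ℝ)), IsEmbedding φ ∧
    A = φ ⁻¹' {x : Γ → ℝ | {γ : Γ | x γ ≠ 0}.Countable}

/-- `K` is homeomorphic to a product of compact metrizable spaces. -/
def IsProductOfMetrizableCompacta (K : Type) [TopologicalSpace K] : Prop :=
  ∃ (T : Type) (M : T → Type) (_ : ∀ t, TopologicalSpace (M t)),
    (∀ t, CompactSpace (M t)) ∧ (∀ t, TopologicalSpace.MetrizableSpace (M t)) ∧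
      Nonempty (K ≃ₜ ∀ t, M t)

open Pool.Agent.Y559.VG in
open Pool.Agent.Results.MP_42f98c_gt.AllMetrizableGroups (W J) in
/-- **Every nontrivial compact group.**  Every nontrivial compact Hausdorff group acts faithfully and
continuously on a Valdivia compact space, homeomorphic to a product of compact metrizable spaces, in
such a way that no dense Sigma-subset is invariant, not even under one element of the group other than
the identity. -/
theorem result (G : Type) [Group G] [TopologicalSpace G] [IsTopologicalGroup G]
    [CompactSpace G] [T2Space G] [Nontrivial G] :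
    ∃ (K : Type) (_ : TopologicalSpace K) (_ : CompactSpace K) (_ : T2Space K)
      (_ : MulAction G K),
      ContinuousSMul G K ∧ FaithfulSMul G K ∧ IsProductOfMetrizableCompacta K ∧
      (∃ A : Set K, Dense A ∧ IsSigmaSubset A) ∧
      ∀ A : Set K, Dense A → IsSigmaSubset A → ∀ g : G, g ≠ 1 → ∃ a ∈ A, g • a ∉ A := by
  let H : C(G, ℝ) → Type := fun f => G ⧸ periods f
  let ρ : ∀ f : C(G, ℝ), G →* H f := fun f => QuotientGroup.mk' (periods f)
  have hρ : ∀ f, Continuous (ρ f) := fun f => QuotientGroup.continuous_mk
  have hsep : ∀ g, g ≠ 1 → ∃ f, ρ f g ≠ 1 := separates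
  have hemb : ∀ f : C(G, ℝ), ∃ ψ : H f → ℕ → ℝ, Continuous ψ ∧ Function.Injective ψ := by
    intro f
    obtain ⟨e, he⟩ := TopologicalSpace.exists_embedding_l_infty (G ⧸ periods f)
    refine ⟨fun x n => e x n, BoundedContinuousFunction.continuous_coe.comp he.continuous, ?_⟩
    intro x y h
    exact he.injective (BoundedContinuousFunction.ext fun n => congrFun h n)
  choose ψ hψ hinj using hemb
  letI : MulAction G (KH H) := action ρ
  refine ⟨KH H, inferInstance, inferInstance, inferInstance, inferInstance,
    ⟨continuous_sm2 ρ hρ⟩, ⟨fun {g h} hgh => faithful_sm ρ hsep g h hgh⟩, ?_,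
    ⟨_, emb_dense ψ, W ⊕ ((J × C(G, ℝ)) × ℕ), _, emb_embedding ψ hψ hinj, rfl⟩, ?_⟩
  · exact ⟨W ⊕ (J × C(G, ℝ)), Fam H, famTop H, famCompact H, famMetrizable H, famHomeo H⟩
  · rintro A hA ⟨Γ, φ, hφ, hAφ⟩ g hg
    by_contra hcon
    refine no_invariant ρ hρ hsep g hg A hA ?_ Γ φ hφ hAφ
    intro x hx
    by_contra hgx
    exact hcon ⟨x, hx, hgx⟩

end Pool.Agent.Results.MP_42f98c_gt.AllCompactGroups
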